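import Pool.Agent.Y353.BS.Count

/-!
Project BS (helper353): for a set of pairs `(α, β)` of Hausdorff dimension two the product `n m_n M_n` is bounded
below by `exp (-C (1 + √(log (1 + √n M_n))))`.
-/

set_option autoImplicit false

open Finset Filter Topology

namespace Pool.Agent.Y353.BS

open Pool.Agent.H389R2.Bs (Sq mem_Sq mem_Sq_swap r_pos r_lt r_lt_one pow_lt_pow_r pow_le_pow_r le_dimH_of_tree
  exists_P dist0)

variable {P N : ℕ}

/-- Points lying in a nested sequence of good squares. -/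
def Lim (R N : ℕ) (z : ℝ × ℝ) : Prop := ∃ n : ℕ → ℤ × ℤ, ∀ k, Good R N k (n k) ∧ z ∈ Sq R k (n k)

lemma Lim.swap {R N : ℕ} {z : ℝ × ℝ} (h : Lim R N z) : Lim R N z.swap := by
  obtain ⟨n, hn⟩ := h
  exact ⟨fun k => (n k).swap, fun k => ⟨(hn k).1.swap, mem_Sq_swap.2 (hn k).2⟩⟩

lemma Lim.avoid {R N : ℕ} (hR : 64 ≤ R) {z : ℝ × ℝ} (h : Lim R N z) {q : ℕ} (hq : 1 ≤ q)
    (p₁ p₂ : ℤ) (l : ℕ)
    (hY : |q * z.2 - p₂| * √(q : ℝ) * ((R : ℝ)⁻¹) ^ (ff N l) ≤ 1) :
    ((R : ℝ)⁻¹) ^ (tP N l + l + 5) < |q * z.1 - p₁| * √(q : ℝ) := by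
  obtain ⟨n, hn⟩ := h
  have h0 := r_pos hR
  have h1 := r_lt_one hR
  have ht : Tendsto (fun k : ℕ => ((R : ℝ)⁻¹) ^ k * (q * √(q : ℝ))) atTop (𝓝 (0 * (q * √(q : ℝ)))) :=
    (tendsto_pow_atTop_nhds_zero_of_lt_one h0.le h1).mul_const _
  rw [zero_mul] at ht
  have hE : (0 : ℝ) < ((R : ℝ)⁻¹) ^ (tP N l + l + 5) := by positivity
  obtain ⟨k, hk⟩ := (ht.eventually (gt_mem_nhds hE)).exists
  exact (hn k).1.avoidP hR (hn k).2 hq p₁ p₂ hk.le hY

/-- The key analytic estimate. -/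
lemma gauge {R N : ℕ} (hR : 64 ≤ R) {a b : ℝ} (ha : 0 ≤ a) (hab : a ≤ b)
    (h : ∀ l : ℕ, b * ((R : ℝ)⁻¹) ^ (ff N l) ≤ 1 → ((R : ℝ)⁻¹) ^ (tP N l + l + 5) < a) :
    Real.exp (-((8 * N + 62) * Real.log R * (1 + √(Real.log (1 + b))))) ≤ a * b := by
  have h0 := r_pos hR
  have h1 := r_lt_one hR
  have hRR : (64 : ℝ) ≤ R := by exact_mod_cast hR
  have hR0 : (0 : ℝ) < R := by linarith
  have hL1 : 1 ≤ Real.log R := by
    rw [Real.le_log_iff_exp_le hR0]
    have := Real.exp_one_lt_d9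
    linarith
  set L := Real.log (R : ℝ) with hL
  have hL0 : 0 < L := by linarith
  have hpow : ∀ m : ℕ, ((R : ℝ)⁻¹) ^ m = Real.exp (-(m * L)) := by
    intro m
    rw [Real.exp_neg, ← Real.log_pow, Real.exp_log (by positivity), inv_pow]
  have hN0 : (0 : ℝ) ≤ N := Nat.cast_nonneg N
  have hsq0 : 0 ≤ √(Real.log (1 + b)) := Real.sqrt_nonneg _
  have hex : ∃ l : ℕ, b * ((R : ℝ)⁻¹) ^ (ff N l) ≤ 1 := by
    have ht : Tendsto (fun l : ℕ => b * ((R : ℝ)⁻¹) ^ l) atTop (𝓝 (b * 0)) :=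
      (tendsto_pow_atTop_nhds_zero_of_lt_one h0.le h1).const_mul _
    rw [mul_zero] at ht
    obtain ⟨l, hl⟩ := (ht.eventually (gt_mem_nhds zero_lt_one)).exists
    refine ⟨l, le_trans ?_ hl.le⟩
    apply mul_le_mul_of_nonneg_left _ (ha.trans hab)
    rw [pow_le_pow_r h0 h1]
    unfold ff
    rcases Nat.eq_zero_or_pos l with rfl | hl0
    · simp
    · nlinarith [Nat.zero_le (N * l)]
  classical
  obtain ⟨l, hl, hmin⟩ : ∃ l, b * ((R : ℝ)⁻¹) ^ (ff N l) ≤ 1 ∧ ∀ m < l, ¬ (b * ((R : ℝ)⁻¹) ^ (ff N m) ≤ 1) :=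
    ⟨Nat.find hex, Nat.find_spec hex, fun m hm => Nat.find_min hex hm⟩
  have hal := h l hl
  rcases Nat.eq_zero_or_pos l with rfl | hl0
  · have e : tP N 0 + 0 + 5 = 4 * N + 31 := by unfold tP ff; ring
    rw [e] at hal
    have hb1 : ((R : ℝ)⁻¹) ^ (4 * N + 31) ≤ b := hal.le.trans hab
    calc Real.exp (-((8 * N + 62) * L * (1 + √(Real.log (1 + b)))))
        ≤ Real.exp (-(((8 * N + 62 : ℕ) : ℝ) * L)) := by
          rw [Real.exp_le_exp, neg_le_neg_iff]
          push_cast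
          have : 0 ≤ (8 * (N : ℝ) + 62) * L * √(Real.log (1 + b)) := by positivity
          linarith
      _ = ((R : ℝ)⁻¹) ^ (4 * N + 31) * ((R : ℝ)⁻¹) ^ (4 * N + 31) := by
          rw [← hpow, ← pow_add]
          congr 1
          ring
      _ ≤ a * b := mul_le_mul hal.le hb1 (by positivity) ha
  · obtain ⟨m, rfl⟩ := Nat.exists_eq_succ_of_ne_zero hl0.ne'
    have hm := hmin m (Nat.lt_succ_self m)
    push Not at hm
    have hb : Real.exp ((ff N m : ℕ) * L) ≤ b := by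
      rw [hpow] at hm
      have h2 : Real.exp ((ff N m : ℕ) * L) * Real.exp (-((ff N m : ℕ) * L)) = 1 := by
        rw [← Real.exp_add]; simp
      have h3 : 0 < Real.exp (-(((ff N m : ℕ) : ℝ) * L)) := Real.exp_pos _
      rw [← h2] at hm
      exact (lt_of_mul_lt_mul_right hm h3.le).le
    have e : tP N (Nat.succ m) + Nat.succ m + 5 = ff N m + (14 * m + 5 * N + 44) := by
      unfold tP ff
      rw [Nat.succ_eq_add_one]
      ring
    rw [e] at hal
    have hb0 : 0 < b := lt_of_lt_of_le (Real.exp_pos _) hb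
    have hlogb : (m : ℝ) ^ 2 ≤ Real.log (1 + b) := by
      have h2 : (ff N m : ℕ) * L ≤ Real.log b := by
        rw [Real.le_log_iff_exp_le hb0]; exact hb
      have h3 : Real.log b ≤ Real.log (1 + b) := Real.log_le_log hb0 (by linarith)
      have h4 : ((m : ℝ)) ^ 2 ≤ ((ff N m : ℕ) : ℝ) := by
        unfold ff
        push_cast
        have : 0 ≤ (N : ℝ) * m := by positivity
        nlinarith
      have h5 : ((ff N m : ℕ) : ℝ) * 1 ≤ (ff N m : ℕ) * L :=
        mul_le_mul_of_nonneg_left hL1 (Nat.cast_nonneg _)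
      linarith
    have hmle : (m : ℝ) ≤ √(Real.log (1 + b)) := Real.le_sqrt_of_sq_le hlogb
    have ha0 : 0 < a := lt_trans (by positivity) hal
    calc Real.exp (-((8 * N + 62) * L * (1 + √(Real.log (1 + b)))))
        ≤ Real.exp (-(((14 * m + 5 * N + 44 : ℕ) : ℝ) * L)) := by
          rw [Real.exp_le_exp, neg_le_neg_iff]
          push_cast
          have h2 : (14 * (m : ℝ) + 5 * N + 44) ≤ (8 * N + 62) * (1 + √(Real.log (1 + b))) := by
            have h3 : 0 ≤ (N : ℝ) * √(Real.log (1 + b)) := by positivity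
            nlinarith
          calc (14 * (m : ℝ) + 5 * N + 44) * L ≤ ((8 * N + 62) * (1 + √(Real.log (1 + b)))) * L :=
                mul_le_mul_of_nonneg_right h2 hL0.le
            _ = _ := by ring
      _ = ((R : ℝ)⁻¹) ^ (ff N m + (14 * m + 5 * N + 44)) * Real.exp ((ff N m : ℕ) * L) := by
          rw [hpow, ← Real.exp_add]
          congr 1
          push_cast
          ring
      _ ≤ a * b := mul_le_mul hal.le hb (Real.exp_nonneg _) ha

/-- the constant -/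
noncomputable def CC (R : ℕ) : ℝ := (8 * (16 : ℕ) + 62) * Real.log R

lemma Lim.final {R : ℕ} (hR : 64 ≤ R) {z : ℝ × ℝ} (h : Lim R 16 z) {q : ℕ} (hq : 1 ≤ q) :
    Real.exp (-(CC R * (1 + √(Real.log (1 + √(q : ℝ) * max (dist0 (q * z.1)) (dist0 (q * z.2))))))) ≤
      q * min (dist0 (q * z.1)) (dist0 (q * z.2)) * max (dist0 (q * z.1)) (dist0 (q * z.2)) := by
  set a := min (dist0 (q * z.1)) (dist0 (q * z.2)) with ha
  set b := max (dist0 (q * z.1)) (dist0 (q * z.2)) with hb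
  have hq' : (1 : ℝ) ≤ q := by exact_mod_cast hq
  have ha0 : 0 ≤ a := le_min (abs_nonneg _) (abs_nonneg _)
  have hab : a ≤ b := min_le_max
  have hb0 : 0 ≤ b := ha0.trans hab
  set t := √(q : ℝ) with ht
  have ht0 : 0 < t := Real.sqrt_pos.2 (by linarith)
  have ht2 : t ^ 2 = q := Real.sq_sqrt (by linarith)
  have key : ∀ l : ℕ, (t * b) * ((R : ℝ)⁻¹) ^ (ff 16 l) ≤ 1 →
      ((R : ℝ)⁻¹) ^ (tP 16 l + l + 5) < t * a := by
    intro l hl
    rw [mul_comm t b] at hl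
    rw [mul_comm t a]
    rcases le_total (dist0 (q * z.1)) (dist0 (q * z.2)) with hle | hle
    · rw [ha, min_eq_left hle]
      rw [hb, max_eq_right hle] at hl
      exact h.avoid hR hq _ _ l hl
    · rw [ha, min_eq_right hle]
      rw [hb, max_eq_left hle] at hl
      exact h.swap.avoid hR hq _ _ l hl
  have := gauge hR (mul_nonneg ht0.le ha0) (mul_le_mul_of_nonneg_left hab ht0.le) key
  refine this.trans (le_of_eq ?_)
  rw [← ht2]
  ring

/-- The set of the pairs for which `n m_n M_n` is bounded below by `exp (-C (1 + √(log (1 + √n M_n))))`. -/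
def GProd : Set (ℝ × ℝ) :=
  {z | ∃ C : ℝ, ∀ n : ℕ, 1 ≤ n →
    Real.exp (-(C * (1 + √(Real.log (1 + √(n : ℝ) * max (dist0 (n * z.1)) (dist0 (n * z.2))))))) ≤
      n * min (dist0 (n * z.1)) (dist0 (n * z.2)) * max (dist0 (n * z.1)) (dist0 (n * z.2))}

theorem dimH_GProd : 2 ≤ dimH GProd := by
  refine le_of_forall_lt fun c hc => ?_
  obtain ⟨δ, hδ1, hδ2⟩ := ENNReal.lt_iff_exists_nnreal_btwn.1 hc
  refine lt_of_lt_of_le hδ1 ?_
  have hδ2' : (δ : ℝ) < 2 := by exact_mod_cast hδ2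
  have hδ0 : 0 < δ := by
    have : (0 : ENNReal) < δ := lt_of_le_of_lt bot_le hδ1
    exact_mod_cast this
  obtain ⟨P, hP, hPδ⟩ := exists_P hδ2'
  have hR : 64 ≤ 2 * P := by omega
  have hle : 12 * P ≤ P * P := by nlinarith
  have hM : P * P - 12 * P + 12 * P ≤ P * P := by omega
  have hM2 : 2 ≤ P * P - 12 * P := by
    have : 12 * P + 2 ≤ P * P := by nlinarith
    omega
  refine le_dimH_of_tree hδ0 (R := 2 * P) (M := P * P - 12 * P) (by omega) hM2 hPδ
    (good_root (N := 16) (2 * P)) (branch hP le_rfl hM) ?_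
  intro z hz
  have hlim : Lim (2 * P) 16 z := hz
  exact ⟨CC (2 * P), fun n hn => hlim.final hR hn⟩

/-- From the gauge to the exponents. -/
lemma gauge_to {C b : ℝ} (hb : 0 ≤ b) {a : ℝ} (ha : 0 ≤ a) (hab : a ≤ b) {s : ℝ} (hs0 : 0 ≤ s) (hs1 : s < 1)
    (hC : 0 ≤ C) (h : Real.exp (-(C * (1 + √(Real.log (1 + b))))) ≤ a * b) :
    ∃ c : ℝ, c = Real.exp (-(C + C ^ 2 / (4 * (2 - 2 * s)) +
      (2 - 2 * s) * Real.log (1 + Real.exp (C * (1 + √(Real.log 2)))))) ∧ c ≤ a ^ s * b ^ (2 - s) := by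
  refine ⟨_, rfl, ?_⟩
  set x := √(Real.log (1 + b)) with hx
  have hx0 : 0 ≤ x := Real.sqrt_nonneg _
  have hlog0 : 0 ≤ Real.log (1 + b) := Real.log_nonneg (by linarith)
  have hx2 : x ^ 2 = Real.log (1 + b) := Real.sq_sqrt hlog0
  set c₀ := Real.exp (-(C * (1 + √(Real.log 2)))) with hc₀
  have hc0 : 0 < c₀ := Real.exp_pos _
  have hc1 : c₀ ≤ 1 := by
    rw [hc₀, Real.exp_le_one_iff]
    have : 0 ≤ C * (1 + √(Real.log 2)) := by positivity
    linarith
  have hbc : c₀ ≤ b := by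
    rcases le_total 1 b with h1 | h1
    · linarith
    · have h2 : x ≤ √(Real.log 2) := by
        apply Real.sqrt_le_sqrt
        exact Real.log_le_log (by linarith) (by linarith)
      have h3 : c₀ ≤ Real.exp (-(C * (1 + x))) := by
        rw [hc₀, Real.exp_le_exp, neg_le_neg_iff]
        exact mul_le_mul_of_nonneg_left (by linarith) hC
      have h4 : a * b ≤ b := by nlinarith
      linarith
  have hb0 : 0 < b := by linarith
  have hab0 : 0 < a * b := lt_of_lt_of_le (Real.exp_pos _) h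
  have ha0 : 0 < a := by
    rcases ha.lt_or_eq with h2 | h2
    · exact h2
    · rw [← h2, zero_mul] at hab0
      exact absurd hab0 (lt_irrefl _)
  have e1 : a ^ s * b ^ (2 - s) = (a * b) ^ s * b ^ (2 - 2 * s) := by
    rw [Real.mul_rpow ha hb, mul_assoc, ← Real.rpow_add hb0]
    congr 2
    ring
  have h5 : Real.log (1 + b) - Real.log (1 + Real.exp (C * (1 + √(Real.log 2)))) ≤ Real.log b := by
    rw [sub_le_iff_le_add, ← Real.log_mul hb0.ne' (by positivity)]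
    apply Real.log_le_log (by linarith)
    have h6 : c₀ * Real.exp (C * (1 + √(Real.log 2))) = 1 := by
      rw [hc₀, ← Real.exp_add]; simp
    have h7 : 0 < Real.exp (C * (1 + √(Real.log 2))) := Real.exp_pos _
    nlinarith
  have h6 : Real.exp (s * (-(C * (1 + x)))) ≤ (a * b) ^ s := by
    rw [mul_comm s, Real.exp_mul]
    exact Real.rpow_le_rpow (Real.exp_nonneg _) h hs0
  have h7 : Real.exp ((2 - 2 * s) * (x ^ 2 - Real.log (1 + Real.exp (C * (1 + √(Real.log 2)))))) ≤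
      b ^ (2 - 2 * s) := by
    rw [Real.rpow_def_of_pos hb0, Real.exp_le_exp, mul_comm]
    apply mul_le_mul_of_nonneg_right _ (by linarith)
    rw [hx2]
    exact h5
  rw [e1]
  refine le_trans ?_ (mul_le_mul h6 h7 (Real.exp_nonneg _) (by positivity))
  rw [← Real.exp_add, Real.exp_le_exp]
  have hd : 0 < 2 - 2 * s := by linarith
  have h8 : C * x ≤ (2 - 2 * s) * x ^ 2 + C ^ 2 / (4 * (2 - 2 * s)) := by
    have h9 : 0 ≤ (2 - 2 * s) * (x - C / (2 * (2 - 2 * s))) ^ 2 := by positivity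
    have h10 : (2 - 2 * s) * (x - C / (2 * (2 - 2 * s))) ^ 2 =
        (2 - 2 * s) * x ^ 2 - C * x + C ^ 2 / (4 * (2 - 2 * s)) := by
      have hid : ∀ d y : ℝ, 0 < d → d * (y - C / (2 * d)) ^ 2 = d * y ^ 2 - C * y + C ^ 2 / (4 * d) := by
        intro d y hd
        field_simp
        ring
      exact hid _ _ hd
    linarith
  have h11 : s * (C * (1 + x)) ≤ C * (1 + x) := by
    have : 0 ≤ C * (1 + x) := by positivity
    nlinarith
  nlinarith

end Pool.Agent.Y353.BS
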