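import Pool.Agent.H389R2.Bs.Final

/-!
Project BS (helper353): a Cantor set of pairs with `m_n M_n n` bounded below up to a factor
`exp (C √(log (M_n √n)))` (variant of `Pool.Agent.H389R2.Bs` with the shapes `N l` replaced by `l ^ 2 + N l`).
-/

set_option autoImplicit false

open Finset

namespace Pool.Agent.Y353.BS

open Pool.Agent.H389R2.Bs (Sq mem_Sq Sq_nonempty Child Child.subset Sep Branch le_dimH_of_tree bb BadD ind ind_nonneg ind_le_one ind_of ind_not mem_Sq_swap r_pos r_lt r_lt_one pow_lt_pow_r pow_le_pow_r bb_one_le abs_le_bb exists_level uniqP_core abs_sub_le_of_mem uniqD_core kid kid_swap pos kid_child kid_sep card_le_three strip_count sum_ind_eq_card sum_pos_swap geom_bound exists_P)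

/-- The shape function. -/
def ff (N l : ℕ) : ℕ := l * l + N * l

/-- The exponent governing the scale at which a rational point is processed. -/
def tP (N l : ℕ) : ℕ := ff N l + 11 * l + 4 * N + 26

/-- The exponent governing the scale at which a rational line is processed. -/
def tD (N l : ℕ) : ℕ := 16 * l + 6 * N + 34

/-- Rational points of denominator `q` of shape `l` are processed at level `j`. -/
def ClP (r : ℝ) (N j l q : ℕ) : Prop :=
  1 ≤ q ∧ r ^ j * (q * √(q : ℝ)) < r ^ tP N l ∧ r ^ (tP N l + 1) ≤ r ^ j * (q * √(q : ℝ))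

/-- The dangerous neighbourhood of the rational point `(p₁/q, p₂/q)`. -/
def BadP (r : ℝ) (N j l q : ℕ) (p₁ p₂ : ℤ) (z : ℝ × ℝ) : Prop :=
  |q * z.1 - p₁| ≤ q * r ^ (j + 4 + l) ∧ |q * z.2 - p₂| * √(q : ℝ) * r ^ (ff N l) ≤ 1

/-- Lines `A x + B y + C = 0` of shape `l` processed at level `j`. -/
def ClD (r : ℝ) (N j l : ℕ) (A B : ℤ) : Prop :=
  1 ≤ A ∧ |B| ≤ A ∧ bb B ≤ A * r ^ (2 * ff N l) ∧ A * r ^ (2 * ff N (l + 1)) < bb B ∧
    r ^ j * ((A : ℝ) ^ 2 * bb B) < r ^ tD N l ∧ r ^ (tD N l + 1) ≤ r ^ j * ((A : ℝ) ^ 2 * bb B)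

def HitP (R N j l k : ℕ) (i : ℤ × ℤ) : Prop :=
  ∃ (q : ℕ) (p₁ p₂ : ℤ), ClP ((R : ℝ)⁻¹) N j l q ∧ ∃ z ∈ Sq R k i,
    BadP ((R : ℝ)⁻¹) N j l q p₁ p₂ z

def HitD (R N j l k : ℕ) (i : ℤ × ℤ) : Prop :=
  ∃ (A B C : ℤ), ClD ((R : ℝ)⁻¹) N j l A B ∧ ∃ z ∈ Sq R k i, BadD ((R : ℝ)⁻¹) j l A B C z

/-- Number of the four kinds of dangers of type `(j, l)` meeting the square. -/
noncomputable def cnt (R N j l k : ℕ) (i : ℤ × ℤ) : ℝ :=
  ind (HitP R N j l k i) + ind (HitP R N j l k i.swap) + ind (HitD R N j l k i) +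
    ind (HitD R N j l k i.swap)

lemma cnt_nonneg (R N j l k : ℕ) (i : ℤ × ℤ) : 0 ≤ cnt R N j l k i := by
  unfold cnt
  have h1 := ind_nonneg (HitP R N j l k i)
  have h2 := ind_nonneg (HitP R N j l k i.swap)
  have h3 := ind_nonneg (HitD R N j l k i)
  have h4 := ind_nonneg (HitD R N j l k i.swap)
  linarith

lemma cnt_le_four (R N j l k : ℕ) (i : ℤ × ℤ) : cnt R N j l k i ≤ 4 := by
  unfold cnt
  have h1 := ind_le_one (HitP R N j l k i)
  have h2 := ind_le_one (HitP R N j l k i.swap)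
  have h3 := ind_le_one (HitD R N j l k i)
  have h4 := ind_le_one (HitD R N j l k i.swap)
  linarith

lemma cnt_swap (R N j l k : ℕ) (i : ℤ × ℤ) : cnt R N j l k i.swap = cnt R N j l k i := by
  unfold cnt
  rw [Prod.swap_swap]; ring

/-- The potential of a square. -/
noncomputable def Phi (R N k : ℕ) (i : ℤ × ℤ) : ℝ :=
  ∑ j ∈ range (k + 1), ∑ l ∈ range (j + 1), (2 : ℝ) ^ k / 2 ^ (j + 4 + l) * cnt R N j l k i

/-- Good squares. -/
def Good (R N k : ℕ) (i : ℤ × ℤ) : Prop := Phi R N k i < 1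

lemma Phi_swap (R N k : ℕ) (i : ℤ × ℤ) : Phi R N k i.swap = Phi R N k i := by
  unfold Phi; simp only [cnt_swap]

lemma Good.swap {R N k : ℕ} {i : ℤ × ℤ} (h : Good R N k i) : Good R N k i.swap := by
  unfold Good at *; rwa [Phi_swap]

section params

variable {R N : ℕ}

lemma ClP.le {r : ℝ} (h0 : 0 < r) (h1 : r < 1) {j l q : ℕ} (h : ClP r N j l q) : l ≤ j := by
  obtain ⟨hq, h2, -⟩ := h
  have hq' : (1 : ℝ) ≤ q := by exact_mod_cast hq
  have hs : 1 ≤ √(q : ℝ) := by rw [Real.one_le_sqrt]; exact hq'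
  have h3 : 1 ≤ (q : ℝ) * √(q : ℝ) := by nlinarith
  have h4 : r ^ j < r ^ tP N l := by
    have : 0 < r ^ j := by positivity
    nlinarith
  rw [pow_lt_pow_r h0 h1] at h4
  have : l ≤ tP N l := by unfold tP; omega
  omega

lemma ClD.le {r : ℝ} (h0 : 0 < r) (h1 : r < 1) {j l : ℕ} {A B : ℤ} (h : ClD r N j l A B) :
    l ≤ j := by
  obtain ⟨hA, -, -, -, h2, -⟩ := h
  have hA' : (1 : ℝ) ≤ A := by exact_mod_cast hA
  have hb := bb_one_le B
  have h3 : 1 ≤ (A : ℝ) ^ 2 * bb B := by nlinarith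
  have h4 : r ^ j < r ^ tD N l := by
    have : 0 < r ^ j := by positivity
    nlinarith
  rw [pow_lt_pow_r h0 h1] at h4
  have : l ≤ tD N l := by unfold tD; omega
  omega

lemma Good.cnt_lt {k : ℕ} {i : ℤ × ℤ} (h : Good R N k i) {j l : ℕ} (hj : j ≤ k) (hl : l ≤ j) :
    (2 : ℝ) ^ k / 2 ^ (j + 4 + l) * cnt R N j l k i < 1 := by
  refine lt_of_le_of_lt ?_ h
  unfold Phi
  have h1 : ∀ j ∈ range (k + 1), 0 ≤ ∑ l ∈ range (j + 1),
      (2 : ℝ) ^ k / 2 ^ (j + 4 + l) * cnt R N j l k i := by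
    intro j _
    exact sum_nonneg fun l _ => mul_nonneg (by positivity) (cnt_nonneg _ _ _ _ _ _)
  refine le_trans ?_ (single_le_sum h1 (mem_range.2 (Nat.lt_succ_of_le hj)))
  exact single_le_sum (f := fun l => (2 : ℝ) ^ k / 2 ^ (j + 4 + l) * cnt R N j l k i)
    (fun l _ => mul_nonneg (by positivity) (cnt_nonneg _ _ _ _ _ _))
    (mem_range.2 (Nat.lt_succ_of_le hl))

lemma Good.lt_of_cnt {k : ℕ} {i : ℤ × ℤ} (h : Good R N k i) {j l : ℕ} (hj : j ≤ k) (hl : l ≤ j)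
    (hc : 1 ≤ cnt R N j l k i) : k < j + 4 + l := by
  by_contra hk
  push Not at hk
  have h1 := h.cnt_lt hj hl
  have h2 : (1 : ℝ) ≤ 2 ^ k / 2 ^ (j + 4 + l) := by
    rw [one_le_div (by positivity)]
    exact pow_le_pow_right₀ (by norm_num) hk
  nlinarith

lemma Good.lt_of_hitP (hR : 64 ≤ R) {k : ℕ} {i : ℤ × ℤ} (h : Good R N k i) {j l : ℕ}
    (hj : j ≤ k) (hc : HitP R N j l k i) : k < j + 4 + l := by
  have hl : l ≤ j := by
    obtain ⟨q, _, _, hq, _⟩ := hc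
    exact hq.le (r_pos hR) (r_lt_one hR)
  refine h.lt_of_cnt hj hl ?_
  unfold cnt
  rw [ind_of hc]
  have h2 := ind_nonneg (HitP R N j l k i.swap)
  have h3 := ind_nonneg (HitD R N j l k i)
  have h4 := ind_nonneg (HitD R N j l k i.swap)
  linarith

lemma Good.lt_of_hitD (hR : 64 ≤ R) {k : ℕ} {i : ℤ × ℤ} (h : Good R N k i) {j l : ℕ}
    (hj : j ≤ k) (hc : HitD R N j l k i) : k < j + 4 + l := by
  have hl : l ≤ j := by
    obtain ⟨A, B, C, hq, _⟩ := hc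
    exact hq.le (r_pos hR) (r_lt_one hR)
  refine h.lt_of_cnt hj hl ?_
  unfold cnt
  rw [ind_of hc]
  have h2 := ind_nonneg (HitP R N j l k i.swap)
  have h3 := ind_nonneg (HitP R N j l k i)
  have h4 := ind_nonneg (HitD R N j l k i.swap)
  linarith

/-- Points of good squares are not too close to rational points. -/
lemma Good.avoidP (hR : 64 ≤ R) {k : ℕ} {i : ℤ × ℤ} (h : Good R N k i) {z : ℝ × ℝ}
    (hz : z ∈ Sq R k i) {q : ℕ} (hq : 1 ≤ q) (p₁ p₂ : ℤ) {l : ℕ}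
    (hk : ((R : ℝ)⁻¹) ^ k * (q * √(q : ℝ)) ≤ ((R : ℝ)⁻¹) ^ (tP N l + l + 5))
    (hY : |q * z.2 - p₂| * √(q : ℝ) * ((R : ℝ)⁻¹) ^ (ff N l) ≤ 1) :
    ((R : ℝ)⁻¹) ^ (tP N l + l + 5) < |q * z.1 - p₁| * √(q : ℝ) := by
  have h0 := r_pos hR
  have h1 := r_lt_one hR
  have hq' : (1 : ℝ) ≤ q := by exact_mod_cast hq
  have hs : 1 ≤ √(q : ℝ) := by rw [Real.one_le_sqrt]; exact hq'
  have hX : 1 ≤ (q : ℝ) * √(q : ℝ) := by nlinarith
  obtain ⟨j, hj1, hj2⟩ := exists_level hR (t := tP N l) hX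
  set r := (R : ℝ)⁻¹ with hr
  set X := (q : ℝ) * √(q : ℝ) with hXdef
  have e1 : r ^ (tP N l + l + 5) = r ^ (tP N l + 1) * r ^ (4 + l) := by
    rw [← pow_add]; congr 1; ring
  have e2 : r ^ (j + 4 + l) = r ^ j * r ^ (4 + l) := by
    rw [← pow_add]; congr 1; ring
  have hp : 0 < r ^ (4 + l) := by positivity
  have h5 : r ^ (tP N l + l + 5) ≤ r ^ (j + 4 + l) * X := by
    rw [e1, e2]
    calc r ^ (tP N l + 1) * r ^ (4 + l) ≤ (r ^ j * X) * r ^ (4 + l) :=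
          mul_le_mul_of_nonneg_right hj2 hp.le
      _ = _ := by ring
  have h6 : j + 4 + l ≤ k := by
    rw [← pow_le_pow_r h0 h1]
    have hXp : 0 < X := by linarith
    have := hk.trans h5
    exact le_of_mul_le_mul_right this hXp
  by_contra hcon
  push Not at hcon
  have h7 : |q * z.1 - p₁| ≤ q * r ^ (j + 4 + l) := by
    have h8 : |q * z.1 - p₁| * √(q : ℝ) ≤ (q * r ^ (j + 4 + l)) * √(q : ℝ) := by
      refine (hcon.trans h5).trans (le_of_eq ?_)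
      rw [hXdef]; ring
    exact le_of_mul_le_mul_right h8 (by linarith)
  have hhit : HitP R N j l k i := ⟨q, p₁, p₂, ⟨hq, hj1, hj2⟩, z, hz, h7, hY⟩
  have := h.lt_of_hitP hR (by omega) hhit
  omega

/-- Points of good squares are not too close to rational lines. -/
lemma Good.avoidD (hR : 64 ≤ R) {k : ℕ} {i : ℤ × ℤ} (h : Good R N k i) {z : ℝ × ℝ}
    (hz : z ∈ Sq R k i) {A B : ℤ} (C : ℤ) (hA : 1 ≤ A) (hB : |B| ≤ A) {l : ℕ}
    (hl : bb B ≤ A * ((R : ℝ)⁻¹) ^ (2 * ff N l))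
    (hl' : A * ((R : ℝ)⁻¹) ^ (2 * ff N (l + 1)) < bb B)
    (hk : ((R : ℝ)⁻¹) ^ k * ((A : ℝ) ^ 2 * bb B) ≤ ((R : ℝ)⁻¹) ^ (tD N l + l + 5)) :
    ((R : ℝ)⁻¹) ^ (tD N l + l + 5) < A * bb B * |A * z.1 + B * z.2 + C| := by
  have h0 := r_pos hR
  have h1 := r_lt_one hR
  have hA' : (1 : ℝ) ≤ A := by exact_mod_cast hA
  have hb := bb_one_le B
  have hX : 1 ≤ (A : ℝ) ^ 2 * bb B := by nlinarith
  obtain ⟨j, hj1, hj2⟩ := exists_level hR (t := tD N l) hX
  set r := (R : ℝ)⁻¹ with hr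
  set X := (A : ℝ) ^ 2 * bb B with hXdef
  have e1 : r ^ (tD N l + l + 5) = r ^ (tD N l + 1) * r ^ (4 + l) := by
    rw [← pow_add]; congr 1; ring
  have e2 : r ^ (j + 4 + l) = r ^ j * r ^ (4 + l) := by
    rw [← pow_add]; congr 1; ring
  have hp : 0 < r ^ (4 + l) := by positivity
  have h5 : r ^ (tD N l + l + 5) ≤ r ^ (j + 4 + l) * X := by
    rw [e1, e2]
    calc r ^ (tD N l + 1) * r ^ (4 + l) ≤ (r ^ j * X) * r ^ (4 + l) :=
          mul_le_mul_of_nonneg_right hj2 hp.le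
      _ = _ := by ring
  have h6 : j + 4 + l ≤ k := by
    rw [← pow_le_pow_r h0 h1]
    have hXp : 0 < X := by linarith
    have := hk.trans h5
    exact le_of_mul_le_mul_right this hXp
  by_contra hcon
  push Not at hcon
  have h7 : |A * z.1 + B * z.2 + C| ≤ A * r ^ (j + 4 + l) := by
    have hAb : 0 < (A : ℝ) * bb B := by positivity
    have h8 : (A * bb B) * |A * z.1 + B * z.2 + C| ≤ (A * bb B) * (A * r ^ (j + 4 + l)) := by
      refine (hcon.trans h5).trans (le_of_eq ?_)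
      rw [hXdef]; ring
    exact le_of_mul_le_mul_left h8 hAb
  have hhit : HitD R N j l k i := ⟨A, B, C, ⟨hA, hB, hl, hl', hj1, hj2⟩, z, hz, h7⟩
  have := h.lt_of_hitD hR (by omega) hhit
  omega

end params

end Pool.Agent.Y353.BS
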