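import Pool.Agent.Y353.BS.UniqueP

/-!
Project BS (helper353): dangerous lines, see `Good`.
-/

set_option autoImplicit false

open Finset

namespace Pool.Agent.Y353.BS

open Pool.Agent.H389R2.Bs (Sq mem_Sq Sq_nonempty Child Child.subset Sep Branch le_dimH_of_tree bb BadD ind ind_nonneg ind_le_one ind_of ind_not mem_Sq_swap r_pos r_lt r_lt_one pow_lt_pow_r pow_le_pow_r bb_one_le abs_le_bb exists_level uniqP_core abs_sub_le_of_mem uniqD_core kid kid_swap pos kid_child kid_sep card_le_three strip_count sum_ind_eq_card sum_pos_swap geom_bound exists_P)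

variable {R N : ℕ}

lemma Good.avoidP_int (hR : 64 ≤ R) {k : ℕ} {i : ℤ × ℤ} (h : Good R N k i) {z : ℝ × ℝ}
    (hz : z ∈ Sq R k i) {q : ℤ} (hq : q ≠ 0) (p₁ p₂ : ℤ) {l : ℕ}
    (hk : ((R : ℝ)⁻¹) ^ k * (|(q : ℝ)| * √|(q : ℝ)|) ≤ ((R : ℝ)⁻¹) ^ (tP N l + l + 5))
    (hY : |q * z.2 - p₂| * √|(q : ℝ)| * ((R : ℝ)⁻¹) ^ (ff N l) ≤ 1) :
    ((R : ℝ)⁻¹) ^ (tP N l + l + 5) < |q * z.1 - p₁| * √|(q : ℝ)| := by
  rcases lt_or_gt_of_ne hq with hq' | hq'
  · obtain ⟨n, hn⟩ := Int.eq_ofNat_of_zero_le (a := -q) (by omega)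
    have e1 : |(q : ℝ)| = (n : ℝ) := by
      rw [abs_of_neg (by exact_mod_cast hq')]
      exact_mod_cast hn
    have e0 : (q : ℝ) = -(n : ℝ) := by
      have : ((-q : ℤ) : ℝ) = (n : ℝ) := by exact_mod_cast congrArg (Int.cast (R := ℝ)) hn
      push_cast at this; linarith
    have e2 : |(q : ℝ) * z.2 - p₂| = |(n : ℝ) * z.2 - ((-p₂ : ℤ) : ℝ)| := by
      rw [← abs_neg, e0]; push_cast; congr 1; ring
    have e3 : |(q : ℝ) * z.1 - p₁| = |(n : ℝ) * z.1 - ((-p₁ : ℤ) : ℝ)| := by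
      rw [← abs_neg, e0]; push_cast; congr 1; ring
    rw [e1] at hk
    rw [e1, e2] at hY
    rw [e1, e3]
    exact h.avoidP hR hz (by omega) _ _ hk hY
  · obtain ⟨n, hn⟩ := Int.eq_ofNat_of_zero_le (a := q) (by omega)
    have e0 : (q : ℝ) = (n : ℝ) := by exact_mod_cast congrArg (Int.cast (R := ℝ)) hn
    have e1 : |(q : ℝ)| = (n : ℝ) := by
      rw [abs_of_pos (by exact_mod_cast hq'), e0]
    rw [e1] at hk
    rw [e1, e0] at hY
    rw [e1, e0]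
    exact h.avoidP hR hz (by omega) _ _ hk hY

lemma expo1 (hR : 64 ≤ R) (l : ℕ) :
    72 * (((R : ℝ)⁻¹) ^ tD N l) ^ 2 * (((R : ℝ)⁻¹) ^ (2 * ff N l)) ^ 3 ≤
      (((R : ℝ)⁻¹) ^ (tP N l + l + 5)) ^ 2 * (((R : ℝ)⁻¹) ^ (2 * ff N (l + 1))) ^ 2 := by
  have h0 := r_pos hR
  have h1 := r_lt_one hR
  have h64 := r_lt hR
  set r := (R : ℝ)⁻¹ with hr
  have e1 : (r ^ tD N l) ^ 2 * (r ^ (2 * ff N l)) ^ 3 = r ^ (6 * (l * l) + 12 * N + 68 + 32 * l + 6 * N * l) := by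
    rw [← pow_mul, ← pow_mul, ← pow_add]; congr 1; unfold tD ff; ring
  have e2 : (r ^ (tP N l + l + 5)) ^ 2 * (r ^ (2 * ff N (l + 1))) ^ 2 =
      r ^ (6 * (l * l) + 12 * N + 66 + 32 * l + 6 * N * l) := by
    rw [← pow_mul, ← pow_mul, ← pow_add]; congr 1; unfold tP ff; ring
  rw [mul_assoc, e1, e2]
  have e3 : r ^ (6 * (l * l) + 12 * N + 68 + 32 * l + 6 * N * l) = r ^ (6 * (l * l) + 12 * N + 66 + 32 * l + 6 * N * l) * r ^ 2 := by
    rw [← pow_add]; congr 1; ring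
  rw [e3]
  have h2 : 72 * r ^ 2 ≤ 1 := by nlinarith
  have h3 : 0 < r ^ (6 * (l * l) + 12 * N + 66 + 32 * l + 6 * N * l) := by positivity
  nlinarith

lemma expo2 (hR : 64 ≤ R) (l : ℕ) :
    32 * (((R : ℝ)⁻¹) ^ tD N l) ^ 2 * (((R : ℝ)⁻¹) ^ (2 * ff N l)) ^ 2 ≤
      (((R : ℝ)⁻¹) ^ (2 * ff N (l + 1))) ^ 2 := by
  have h0 := r_pos hR
  have h1 := r_lt_one hR
  have h64 := r_lt hR
  set r := (R : ℝ)⁻¹ with hr
  have e1 : (r ^ tD N l) ^ 2 * (r ^ (2 * ff N l)) ^ 2 = r ^ (4 * (l * l) + 4 * N * l + 8 * l + 4 * N + 4 + (8 * N + 63 + 24 * l)) * r := by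
    rw [← pow_mul, ← pow_mul, ← pow_add, ← pow_succ]; congr 1; unfold tD ff; ring
  have e2 : (r ^ (2 * ff N (l + 1))) ^ 2 = r ^ (4 * (l * l) + 4 * N * l + 8 * l + 4 * N + 4) := by
    rw [← pow_mul]; congr 1; unfold ff; ring
  rw [mul_assoc, e1, e2]
  have h3 : r ^ (4 * (l * l) + 4 * N * l + 8 * l + 4 * N + 4 + (8 * N + 63 + 24 * l)) ≤ r ^ (4 * (l * l) + 4 * N * l + 8 * l + 4 * N + 4) :=
    (pow_le_pow_r h0 h1).2 (by omega)
  have h4 : 0 < r ^ (4 * (l * l) + 4 * N * l + 8 * l + 4 * N + 4 + (8 * N + 63 + 24 * l)) := by positivity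
  nlinarith

lemma expo3 (hR : 64 ≤ R) (l : ℕ) : 4 * ((R : ℝ)⁻¹) ^ tD N l < 1 := by
  have h0 := r_pos hR
  have h1 := r_lt_one hR
  have h64 := r_lt hR
  set r := (R : ℝ)⁻¹ with hr
  have : r ^ tD N l ≤ r ^ 1 := (pow_le_pow_r h0 h1).2 (by unfold tD; omega)
  rw [pow_one] at this
  linarith

lemma Good.uniqD (hR : 64 ≤ R) {k : ℕ} {i : ℤ × ℤ} (h : Good R N k i) {j l : ℕ}
    (hj : j ≤ k) {A B C A' B' C' : ℤ} {z z' : ℝ × ℝ}
    (hA : ClD ((R : ℝ)⁻¹) N j l A B) (hA' : ClD ((R : ℝ)⁻¹) N j l A' B')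
    (hz : z ∈ Sq R k i) (hz' : z' ∈ Sq R k i)
    (hb : BadD ((R : ℝ)⁻¹) j l A B C z) (hb' : BadD ((R : ℝ)⁻¹) j l A' B' C' z') :
    A * B' = A' * B ∧ A * C' = A' * C := by
  have h0 := r_pos hR
  have h1 := r_lt_one hR
  obtain ⟨hd1, hd2⟩ := abs_sub_le_of_mem hz hz'
  obtain ⟨g1, g2, g3, g4, g5, g6⟩ := hA
  obtain ⟨g1', g2', g3', g4', g5', g6'⟩ := hA'
  have E1 := expo1 (N := N) hR l
  have E2 := expo2 (N := N) hR l
  have E3 := expo3 (N := N) hR l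
  have hA1 : (1 : ℝ) ≤ A := by exact_mod_cast g1
  have hA1' : (1 : ℝ) ≤ A' := by exact_mod_cast g1'
  have hBA' : |(B' : ℝ)| ≤ A' := by exact_mod_cast g2'
  unfold BadD at hb hb'
  set r := (R : ℝ)⁻¹ with hr
  have hΓN : (r ^ (ff N l)) ^ 2 = r ^ (2 * ff N l) := by rw [← pow_mul]; congr 1; ring
  set E := r ^ (tP N l + l + 5) with hE
  set θ := r ^ tD N l with hθ
  set Γ := r ^ (2 * ff N l) with hΓ
  set G := r ^ (2 * ff N (l + 1)) with hG
  set u := r ^ j with hu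
  have hu0 : 0 < u := by positivity
  have hE0 : 0 < E := by positivity
  have hθ0 : 0 < θ := by positivity
  have hΓ0 : 0 < Γ := by positivity
  have hG0 : 0 < G := by positivity
  have hku : r ^ k ≤ u := (pow_le_pow_r h0 h1).2 hj
  have hju : r ^ (j + 4 + l) ≤ u := (pow_le_pow_r h0 h1).2 (by omega)
  have hℓ : |(A : ℝ) * z.1 + B * z.2 + C| ≤ A * u :=
    hb.trans (mul_le_mul_of_nonneg_left hju (by linarith))
  have hℓ' : |(A' : ℝ) * z.1 + B' * z.2 + C'| ≤ 3 * (A' * u) := by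
    have e : (A' : ℝ) * z.1 + B' * z.2 + C' =
        (A' * z'.1 + B' * z'.2 + C') + (A' * (z.1 - z'.1) + B' * (z.2 - z'.2)) := by ring
    rw [e]
    refine (abs_add_le _ _).trans ?_
    have t1 : |(A' : ℝ) * z'.1 + B' * z'.2 + C'| ≤ A' * u :=
      hb'.trans (mul_le_mul_of_nonneg_left hju (by linarith))
    have t2 : |(A' : ℝ) * (z.1 - z'.1) + B' * (z.2 - z'.2)| ≤ A' * u + A' * u := by
      refine (abs_add_le _ _).trans ?_
      rw [abs_mul, abs_mul, abs_of_pos (by linarith : (0 : ℝ) < A')]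
      have := hd1.trans hku
      have := hd2.trans hku
      gcongr
    linarith
  obtain ⟨⟨D1, D2, D3⟩, D4, D5, D6⟩ := uniqD_core hu0 hθ0 hΓ0 hG0 hA1 hA1' (bb_one_le B)
    (bb_one_le B') (abs_le_bb B) (abs_le_bb B') g3 g3' g5.le g5'.le g4.le g4'.le hℓ hℓ' rfl
  set D := (A : ℝ) * bb B' + A' * bb B with hD
  have hbB := bb_one_le B
  have hbB' := bb_one_le B'
  have hD1 : 1 ≤ D := by
    have t1 : (1 : ℝ) * 1 ≤ (A : ℝ) * bb B' := mul_le_mul hA1 hbB' zero_le_one (by linarith)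
    have t2 : (0 : ℝ) ≤ (A' : ℝ) * bb B := mul_nonneg (by linarith) (by linarith)
    rw [hD]; linarith
  set q : ℤ := A * B' - A' * B with hq
  set p₁ : ℤ := B * C' - B' * C with hp₁
  set p₂ : ℤ := A' * C - A * C' with hp₂
  have eq : (q : ℝ) = A * B' - A' * B := by rw [hq]; push_cast; ring
  have eX : (q : ℝ) * z.1 - p₁ = B' * (A * z.1 + B * z.2 + C) - B * (A' * z.1 + B' * z.2 + C') := by
    rw [eq, hp₁]; push_cast; ring
  have eY : (q : ℝ) * z.2 - p₂ = A * (A' * z.1 + B' * z.2 + C') - A' * (A * z.1 + B * z.2 + C) := by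
    rw [eq, hp₂]; push_cast; ring
  by_cases hq0 : q = 0
  · constructor
    · rw [hq] at hq0; linarith
    · have h2 : |(p₂ : ℝ)| < 1 := by
        have e : (p₂ : ℝ) = -((q : ℝ) * z.2 - p₂) := by rw [hq0]; push_cast; ring
        rw [e, abs_neg, eY]
        linarith
      have h3 : p₂ = 0 := by
        have : |p₂| < 1 := by exact_mod_cast h2
        exact Int.abs_lt_one_iff.1 this
      rw [hp₂] at h3; linarith
  · exfalso
    set s := √|(q : ℝ)| with hs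
    have hs2 : s ^ 2 = |(q : ℝ)| := Real.sq_sqrt (abs_nonneg _)
    have hs0 : 0 ≤ s := Real.sqrt_nonneg _
    have hqD : |(q : ℝ)| ≤ D := by rw [eq]; exact D1
    have hsq : |(q : ℝ)| ^ 3 ≤ D ^ 3 := by gcongr
    -- first condition
    have F1 : u ^ 2 * D ^ 3 * 9 ≤ E ^ 2 := by
      have hG2 : 0 < G ^ 2 := by positivity
      refine le_of_mul_le_mul_right ?_ hG2
      linarith
    have k1 : r ^ k * (|(q : ℝ)| * s) ≤ E := by
      have : (r ^ k * (|(q : ℝ)| * s)) ^ 2 ≤ E ^ 2 := by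
        calc (r ^ k * (|(q : ℝ)| * s)) ^ 2 = (r ^ k) ^ 2 * (|(q : ℝ)| ^ 2 * s ^ 2) := by ring
          _ = (r ^ k) ^ 2 * |(q : ℝ)| ^ 3 := by rw [hs2]; ring
          _ ≤ u ^ 2 * D ^ 3 := by gcongr
          _ ≤ E ^ 2 := by
            have : 0 < u ^ 2 * D ^ 3 := by positivity
            linarith
      exact (sq_le_sq₀ (by positivity) hE0.le).1 this
    have k2 : |(q : ℝ) * z.2 - p₂| * s * r ^ (ff N l) ≤ 1 := by
      have : (|(q : ℝ) * z.2 - p₂| * s * r ^ (ff N l)) ^ 2 ≤ 1 ^ 2 := by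
        have hG2 : 0 < G ^ 2 := by positivity
        refine le_of_mul_le_mul_right ?_ hG2
        calc (|(q : ℝ) * z.2 - p₂| * s * r ^ (ff N l)) ^ 2 * G ^ 2
            = |(q : ℝ) * z.2 - p₂| ^ 2 * s ^ 2 * (r ^ (ff N l)) ^ 2 * G ^ 2 := by ring
          _ = |(q : ℝ) * z.2 - p₂| ^ 2 * |(q : ℝ)| * Γ * G ^ 2 := by rw [hs2, hΓN]
          _ ≤ (4 * (A * A') * u) ^ 2 * D * Γ * G ^ 2 := by
              have := D3
              rw [← eY] at this
              gcongr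
          _ ≤ 32 * θ ^ 2 * Γ ^ 2 := D5
          _ ≤ 1 ^ 2 * G ^ 2 := by rw [one_pow, one_mul]; exact E2
      exact (sq_le_sq₀ (by positivity) zero_le_one).1 this
    have k3 := h.avoidP_int hR hz hq0 p₁ p₂ k1 k2
    have k4 : |(q : ℝ) * z.1 - p₁| * s ≤ E := by
      have : (|(q : ℝ) * z.1 - p₁| * s) ^ 2 ≤ E ^ 2 := by
        calc (|(q : ℝ) * z.1 - p₁| * s) ^ 2 = |(q : ℝ) * z.1 - p₁| ^ 2 * s ^ 2 := by ring
          _ = |(q : ℝ) * z.1 - p₁| ^ 2 * |(q : ℝ)| := by rw [hs2]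
          _ ≤ (3 * u * D) ^ 2 * D := by
              have := D2
              rw [← eX] at this
              gcongr
          _ = u ^ 2 * D ^ 3 * 9 := by ring
          _ ≤ E ^ 2 := F1
      exact (sq_le_sq₀ (by positivity) hE0.le).1 this
    exact absurd k4 (not_le.2 k3)

end Pool.Agent.Y353.BS
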