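import Pool.Agent.Y353.BS.Good

/-!
Project BS (helper353): dangerous points, see `Good`.
-/

set_option autoImplicit false

open Finset

namespace Pool.Agent.Y353.BS

open Pool.Agent.H389R2.Bs (Sq mem_Sq Sq_nonempty Child Child.subset Sep Branch le_dimH_of_tree bb BadD ind ind_nonneg ind_le_one ind_of ind_not mem_Sq_swap r_pos r_lt r_lt_one pow_lt_pow_r pow_le_pow_r bb_one_le abs_le_bb exists_level uniqP_core abs_sub_le_of_mem uniqD_core kid kid_swap pos kid_child kid_sep card_le_three strip_count sum_ind_eq_card sum_pos_swap geom_bound exists_P)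

variable {R N : ℕ}

lemma exists_shape (hR : 64 ≤ R) (hN : 1 ≤ N) {a b : ℝ} (hb : 1 ≤ b) (hab : b ≤ a) :
    ∃ l : ℕ, b ≤ a * ((R : ℝ)⁻¹) ^ (2 * ff N l) ∧ a * ((R : ℝ)⁻¹) ^ (2 * ff N (l + 1)) < b := by
  classical
  have h0 := r_pos hR
  have h1 := r_lt_one hR
  have hex : ∃ l : ℕ, a * ((R : ℝ)⁻¹) ^ (2 * ff N (l + 1)) < b := by
    have ht : Filter.Tendsto (fun l : ℕ => a * ((R : ℝ)⁻¹) ^ l) Filter.atTop (nhds (a * 0)) :=
      (tendsto_pow_atTop_nhds_zero_of_lt_one h0.le h1).const_mul _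
    rw [mul_zero] at ht
    obtain ⟨l, hl⟩ := (ht.eventually (gt_mem_nhds (by linarith : (0 : ℝ) < b))).exists
    refine ⟨l, lt_of_le_of_lt ?_ hl⟩
    apply mul_le_mul_of_nonneg_left _ (by linarith)
    rw [pow_le_pow_r h0 h1]
    unfold ff
    nlinarith
  refine ⟨Nat.find hex, ?_, Nat.find_spec hex⟩
  rcases Nat.eq_zero_or_pos (Nat.find hex) with h | h
  · rw [h]
    simpa [ff] using hab
  · obtain ⟨m, hm⟩ := Nat.exists_eq_succ_of_ne_zero h.ne'
    have := Nat.find_min hex (m := m) (by omega)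
    rw [hm]
    push Not at this
    exact this

lemma regime (hN : 16 ≤ N) (l m : ℕ) :
    (tD N m + m + 5) + 2 * (ff N l) + 1 ≤ 2 * tP N l ∨
      (tD N m + m + 5) + 3 * (ff N l) + 3 ≤ tP N l + 2 * ff N m := by
  unfold tD tP
  by_cases h : 17 * m ≤ 22 * l + 2 * N + 12
  · left
    omega
  · right
    push Not at h
    obtain ⟨n, rfl⟩ := Nat.exists_eq_add_of_le hN
    obtain ⟨t, rfl⟩ := Nat.exists_eq_add_of_le (show l + 3 ≤ m by omega)
    unfold ff
    nlinarith [Nat.zero_le (l * t), Nat.zero_le (t * t), Nat.zero_le (n * t), Nat.zero_le (n * l)]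

lemma Good.avoidD_abs (hR : 64 ≤ R) {k : ℕ} {i : ℤ × ℤ} (h : Good R N k i) {z : ℝ × ℝ}
    (hz : z ∈ Sq R k i) {A B : ℤ} (C : ℤ) (hA : A ≠ 0) (hB : |B| ≤ |A|) {l : ℕ}
    (hl : bb B ≤ |(A : ℝ)| * ((R : ℝ)⁻¹) ^ (2 * ff N l))
    (hl' : |(A : ℝ)| * ((R : ℝ)⁻¹) ^ (2 * ff N (l + 1)) < bb B)
    (hk : ((R : ℝ)⁻¹) ^ k * (|(A : ℝ)| ^ 2 * bb B) ≤ ((R : ℝ)⁻¹) ^ (tD N l + l + 5)) :
    ((R : ℝ)⁻¹) ^ (tD N l + l + 5) < |(A : ℝ)| * bb B * |A * z.1 + B * z.2 + C| := by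
  rcases lt_or_gt_of_ne hA with hA' | hA'
  · have e1 : |(A : ℝ)| = ((-A : ℤ) : ℝ) := by
      push_cast
      exact abs_of_neg (by exact_mod_cast hA')
    have e2 : bb B = bb (-B) := by unfold bb; push_cast; rw [abs_neg]
    have e3 : |A * z.1 + B * z.2 + C| =
        |((-A : ℤ) : ℝ) * z.1 + ((-B : ℤ) : ℝ) * z.2 + ((-C : ℤ) : ℝ)| := by
      push_cast
      rw [← abs_neg]; congr 1; ring
    rw [e1, e2] at hl hl' hk
    rw [e1, e2, e3]
    refine h.avoidD hR hz (-C) (by omega) ?_ hl hl' hk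
    rw [abs_neg, ← abs_of_neg hA']; exact hB
  · have e1 : |(A : ℝ)| = (A : ℝ) := abs_of_pos (by exact_mod_cast hA')
    rw [e1] at hl hl' hk
    rw [e1]
    refine h.avoidD hR hz C (by omega) ?_ hl hl' hk
    rw [← abs_of_pos hA']; rwa [abs_of_pos hA'] at hB ⊢

lemma Good.uniqP (hR : 64 ≤ R) (hN : 16 ≤ N) {k : ℕ} {i : ℤ × ℤ} (h : Good R N k i) {j l : ℕ}
    (hj : j ≤ k) {q q' : ℕ} {p₁ p₂ p₁' p₂' : ℤ} {z z' : ℝ × ℝ}
    (hq : ClP ((R : ℝ)⁻¹) N j l q) (hq' : ClP ((R : ℝ)⁻¹) N j l q')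
    (hz : z ∈ Sq R k i) (hz' : z' ∈ Sq R k i)
    (hb : BadP ((R : ℝ)⁻¹) N j l q p₁ p₂ z) (hb' : BadP ((R : ℝ)⁻¹) N j l q' p₁' p₂' z') :
    (q : ℤ) * p₁' = q' * p₁ := by
  have h0 := r_pos hR
  have h1 := r_lt_one hR
  have h64 := r_lt hR
  obtain ⟨hd1, hd2⟩ := abs_sub_le_of_mem hz hz'
  obtain ⟨hq1, hq2, hq3⟩ := hq
  obtain ⟨hq1', hq2', hq3'⟩ := hq'
  obtain ⟨b1, b2⟩ := hb
  obtain ⟨b1', b2'⟩ := hb'
  set r := (R : ℝ)⁻¹ with hr
  set u := r ^ j with hu
  set T := r ^ tP N l with hT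
  set Λ := r ^ (ff N l) with hΛ
  have hu0 : 0 < u := by positivity
  have hT0 : 0 < T := by positivity
  have hΛ0 : 0 < Λ := by positivity
  have hΛ1 : Λ ≤ 1 := pow_le_one₀ h0.le h1.le
  have hT1 : T ≤ 1 := pow_le_one₀ h0.le h1.le
  have hku : r ^ k ≤ u := (pow_le_pow_r h0 h1).2 hj
  have hju : r ^ (j + 4 + l) ≤ u := (pow_le_pow_r h0 h1).2 (by omega)
  set s := √(q : ℝ) with hs
  set s' := √(q' : ℝ) with hs'
  have hqr : (1 : ℝ) ≤ q := by exact_mod_cast hq1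
  have hqr' : (1 : ℝ) ≤ q' := by exact_mod_cast hq1'
  have hs2 : s ^ 2 = q := Real.sq_sqrt (by linarith)
  have hs2' : s' ^ 2 = q' := Real.sq_sqrt (by linarith)
  have hs0 : 0 < s := Real.sqrt_pos.2 (by linarith)
  have hs0' : 0 < s' := Real.sqrt_pos.2 (by linarith)
  have ec : (q : ℝ) * s = s ^ 3 := by rw [← hs2]; ring
  have ec' : (q' : ℝ) * s' = s' ^ 3 := by rw [← hs2']; ring
  rw [ec] at hq2 hq3
  rw [ec'] at hq2' hq3'
  have e4 : r ^ (tP N l + 1) = r * T := by rw [hT, pow_succ]; ring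
  rw [e4] at hq3 hq3'
  -- the coordinates
  have hX : |(q : ℝ) * z.1 - p₁| ≤ s ^ 2 * u := by
    rw [hs2]
    refine b1.trans (mul_le_mul_of_nonneg_left hju (by linarith))
  have hX' : |(q' : ℝ) * z.1 - p₁'| ≤ 2 * s' ^ 2 * u := by
    rw [hs2']
    have e : (q' : ℝ) * z.1 - p₁' = (q' * z'.1 - p₁') + q' * (z.1 - z'.1) := by ring
    rw [e]
    refine (abs_add_le _ _).trans ?_
    rw [abs_mul, abs_of_pos (by linarith : (0 : ℝ) < q')]
    have g1 : (q' : ℝ) * r ^ (j + 4 + l) ≤ q' * u := mul_le_mul_of_nonneg_left hju (by linarith)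
    have g2 : (q' : ℝ) * |z.1 - z'.1| ≤ q' * u :=
      mul_le_mul_of_nonneg_left (hd1.trans hku) (by linarith)
    linarith
  have hY' : |(q' : ℝ) * z.2 - p₂'| * s' * Λ ≤ 2 := by
    have e : (q' : ℝ) * z.2 - p₂' = (q' * z'.2 - p₂') + q' * (z.2 - z'.2) := by ring
    have g0 : |(q' : ℝ) * z.2 - p₂'| ≤ |(q' : ℝ) * z'.2 - p₂'| + q' * u := by
      rw [e]
      refine (abs_add_le _ _).trans ?_
      rw [abs_mul, abs_of_pos (by linarith : (0 : ℝ) < q')]
      have g2 : (q' : ℝ) * |z.2 - z'.2| ≤ q' * u :=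
        mul_le_mul_of_nonneg_left (hd2.trans hku) (by linarith)
      linarith
    calc |(q' : ℝ) * z.2 - p₂'| * s' * Λ ≤ (|(q' : ℝ) * z'.2 - p₂'| + q' * u) * s' * Λ := by gcongr
      _ = |(q' : ℝ) * z'.2 - p₂'| * s' * Λ + (u * s' ^ 3) * Λ := by rw [← ec']; ring
      _ ≤ 1 + T * 1 := by gcongr
      _ ≤ 2 := by linarith
  by_contra hne
  set A : ℤ := q' * p₂ - q * p₂' with hA
  set B : ℤ := q * p₁' - q' * p₁ with hB
  set C : ℤ := p₁ * p₂' - p₁' * p₂ with hC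
  have hB0 : B ≠ 0 := by
    intro h'; apply hne; rw [hB] at h'; linarith
  have eA : (A : ℝ) = s ^ 2 * ((q' : ℝ) * z.2 - p₂') - s' ^ 2 * ((q : ℝ) * z.2 - p₂) := by
    rw [hs2, hs2', hA]; push_cast; ring
  have eB : (B : ℝ) = s' ^ 2 * ((q : ℝ) * z.1 - p₁) - s ^ 2 * ((q' : ℝ) * z.1 - p₁') := by
    rw [hs2, hs2', hB]; push_cast; ring
  have eC : (A : ℝ) * z.1 + B * z.2 + C = ((q : ℝ) * z.1 - p₁) * ((q' : ℝ) * z.2 - p₂') -
      ((q' : ℝ) * z.1 - p₁') * ((q : ℝ) * z.2 - p₂) := by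
    rw [hA, hB, hC]; push_cast; ring
  obtain ⟨⟨V1, V2⟩, ⟨V3, V4⟩, H1, H2⟩ := uniqP_core (r := r) hs0 hs0' hu0 hT0 hΛ0 h0 hX b2 hX' hY'
    hq2.le hq2'.le hq3 hq3' (congrArg abs eA) (congrArg abs eB) (congrArg abs eC)
  have hBabs : (1 : ℝ) ≤ |(B : ℝ)| := by
    have : (1 : ℤ) ≤ |B| := Int.one_le_abs hB0
    exact_mod_cast this
  rcases le_or_gt |B| |A| with hAB | hAB
  · -- steep line
    have hA0 : A ≠ 0 := by
      rintro hA0
      rw [hA0, abs_zero] at hAB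
      exact hB0 (abs_nonpos_iff.1 hAB)
    have hbb : bb B = |(B : ℝ)| := by unfold bb; exact max_eq_right hBabs
    have hABr : |(B : ℝ)| ≤ |(A : ℝ)| := by exact_mod_cast hAB
    obtain ⟨m, hm1, hm2⟩ := exists_shape (N := N) hR (by omega) (bb_one_le B) (hbb ▸ hABr)
    set a := |(A : ℝ)| with ha
    set b := |(B : ℝ)| with hb
    set ℓ := |(A : ℝ) * z.1 + B * z.2 + C| with hℓ
    set ψ := r ^ (tD N m + m + 5) with hψ
    have hψ0 : 0 < ψ := by positivity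
    have ha0 : 0 < a := by linarith
    have hℓ0 : 0 ≤ ℓ := abs_nonneg _
    set Γ := r ^ (2 * ff N m) with hΓ
    have hΓ0 : 0 < Γ := by positivity
    rw [hbb] at hm1 hm2
    have claim : a * b * ℓ ≤ ψ ∧ a ^ 2 * b * u ≤ ψ := by
      rcases regime hN l m with hreg | hreg
      · have g : 64 * T ^ 2 ≤ ψ * Λ ^ 2 := by
          have e : ψ * Λ ^ 2 = r ^ ((tD N m + m + 5) + 2 * (ff N l)) := by
            rw [hψ, hΛ, ← pow_mul, ← pow_add]; congr 1; ring
          have e' : T ^ 2 = r ^ (2 * tP N l) := by rw [hT, ← pow_mul]; congr 1; ring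
          rw [e, e']
          calc 64 * r ^ (2 * tP N l) ≤ 64 * r ^ ((tD N m + m + 5) + 2 * (ff N l) + 1) := by
                have := (pow_le_pow_r h0 h1).2 hreg
                linarith
            _ = (64 * r) * r ^ ((tD N m + m + 5) + 2 * (ff N l)) := by rw [pow_succ]; ring
            _ ≤ 1 * r ^ ((tD N m + m + 5) + 2 * (ff N l)) := by gcongr
            _ = _ := one_mul _
        have hΛ2 : 0 < Λ ^ 2 := by positivity
        exact ⟨le_of_mul_le_mul_right (V1.trans g) hΛ2, le_of_mul_le_mul_right (V2.trans g) hΛ2⟩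
      · have g : 64 * T * Γ ≤ ψ * (Λ ^ 3 * r ^ 2) := by
          have e : ψ * (Λ ^ 3 * r ^ 2) = r ^ ((tD N m + m + 5) + 3 * (ff N l) + 2) := by
            rw [hψ, hΛ, ← pow_mul, ← pow_add, ← pow_add]; congr 1; ring
          have e' : T * Γ = r ^ (tP N l + 2 * ff N m) := by rw [hT, hΓ, ← pow_add]
          rw [e, mul_assoc, e']
          calc 64 * r ^ (tP N l + 2 * ff N m)
              ≤ 64 * r ^ ((tD N m + m + 5) + 3 * (ff N l) + 3) := by
                have := (pow_le_pow_r h0 h1).2 hreg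
                linarith
            _ = (64 * r) * r ^ ((tD N m + m + 5) + 3 * (ff N l) + 2) := by
                rw [pow_succ _ ((tD N m + m + 5) + 3 * (ff N l) + 2)]; ring
            _ ≤ 1 * r ^ ((tD N m + m + 5) + 3 * (ff N l) + 2) := by gcongr
            _ = _ := one_mul _
        have hΛ2 : 0 < Λ ^ 3 * r ^ 2 := by positivity
        constructor
        · refine le_of_mul_le_mul_right (le_trans ?_ g) hΛ2
          calc a * b * ℓ * (Λ ^ 3 * r ^ 2) ≤ a * (a * Γ) * ℓ * (Λ ^ 3 * r ^ 2) := by gcongr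
            _ = (a ^ 2 * ℓ * Λ ^ 3 * r ^ 2) * Γ := by ring
            _ ≤ (64 * T) * Γ := by gcongr
        · refine le_of_mul_le_mul_right (le_trans ?_ g) hΛ2
          calc a ^ 2 * b * u * (Λ ^ 3 * r ^ 2) ≤ a ^ 2 * (a * Γ) * u * (Λ ^ 3 * r ^ 2) := by gcongr
            _ = (a ^ 3 * u * Λ ^ 3 * r ^ 2) * Γ := by ring
            _ ≤ (64 * T) * Γ := by gcongr
    have hk : r ^ k * (a ^ 2 * bb B) ≤ ψ := by
      rw [hbb]
      calc r ^ k * (a ^ 2 * b) ≤ u * (a ^ 2 * b) := by gcongr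
        _ = a ^ 2 * b * u := by ring
        _ ≤ ψ := claim.2
    have := h.avoidD_abs hR hz C hA0 hAB (l := m) (by rw [hbb]; exact hm1)
      (by rw [hbb]; exact hm2) hk
    rw [hbb] at this
    exact absurd claim.1 (not_le.2 this)
  · -- flat line
    have hABr : |(A : ℝ)| < |(B : ℝ)| := by exact_mod_cast hAB
    have hbbB : bb A ≤ |(B : ℝ)| := max_le hBabs hABr.le
    obtain ⟨m, hm1, hm2⟩ := exists_shape (N := N) hR (by omega) (bb_one_le A) hbbB
    set a := |(A : ℝ)| with ha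
    set b := |(B : ℝ)| with hb
    set ℓ := |(A : ℝ) * z.1 + B * z.2 + C| with hℓ
    set ψ := r ^ (tD N m + m + 5) with hψ
    have hψ0 : 0 < ψ := by positivity
    have hb0 : 0 < b := by linarith
    have hℓ0 : 0 ≤ ℓ := abs_nonneg _
    have hbA := bb_one_le A
    set Γ := r ^ (2 * ff N m) with hΓ
    have hΓ0 : 0 < Γ := by positivity
    have hNm : 16 * m ≤ ff N m := by unfold ff; nlinarith [Nat.zero_le (m * m)]
    have c1 : b * bb A * ℓ ≤ ψ := by
      have g : 64 * T ^ 3 * Γ ≤ ψ * Λ := by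
        have e : ψ * Λ = r ^ ((tD N m + m + 5) + ff N l) := by
          rw [hψ, hΛ, ← pow_add]
        have e' : T ^ 3 * Γ = r ^ (3 * tP N l + 2 * ff N m) := by
          rw [hT, hΓ, ← pow_mul, ← pow_add]; congr 1; ring
        rw [e, mul_assoc, e']
        calc 64 * r ^ (3 * tP N l + 2 * ff N m)
            ≤ 64 * r ^ ((tD N m + m + 5) + ff N l + 1) := by
              have : (tD N m + m + 5) + ff N l + 1 ≤ 3 * tP N l + 2 * ff N m := by
                unfold tD tP; omega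
              have := (pow_le_pow_r h0 h1).2 this
              linarith
          _ = (64 * r) * r ^ ((tD N m + m + 5) + ff N l) := by
              rw [pow_succ _ ((tD N m + m + 5) + ff N l)]; ring
          _ ≤ 1 * r ^ ((tD N m + m + 5) + ff N l) := by gcongr
          _ = _ := one_mul _
      refine le_of_mul_le_mul_right (le_trans ?_ g) hΛ0
      calc b * bb A * ℓ * Λ ≤ b * (b * Γ) * ℓ * Λ := by gcongr
        _ = (b ^ 2 * ℓ * Λ) * Γ := by ring
        _ ≤ (64 * T ^ 3) * Γ := by gcongr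
    have c2 : r ^ k * (b ^ 2 * bb A) ≤ ψ := by
      have g : 64 * T ^ 4 * Γ ≤ ψ := by
        have e' : T ^ 4 * Γ = r ^ (4 * tP N l + 2 * ff N m) := by
          rw [hT, hΓ, ← pow_mul, ← pow_add]; congr 1; ring
        rw [mul_assoc, e']
        calc 64 * r ^ (4 * tP N l + 2 * ff N m)
            ≤ 64 * r ^ ((tD N m + m + 5) + 1) := by
              have : (tD N m + m + 5) + 1 ≤ 4 * tP N l + 2 * ff N m := by
                unfold tD tP; omega
              have := (pow_le_pow_r h0 h1).2 this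
              linarith
          _ = (64 * r) * r ^ (tD N m + m + 5) := by
              rw [pow_succ _ (tD N m + m + 5)]; ring
          _ ≤ 1 * r ^ (tD N m + m + 5) := by gcongr
          _ = _ := one_mul _
      calc r ^ k * (b ^ 2 * bb A) ≤ u * (b ^ 2 * (b * Γ)) := by gcongr
        _ = (b ^ 3 * u) * Γ := by ring
        _ ≤ (64 * T ^ 4) * Γ := by gcongr
        _ ≤ ψ := g
    have := h.swap.avoidD_abs hR (mem_Sq_swap.2 hz) C hB0 hAB.le (l := m) hm1 hm2 c2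
    simp only [Prod.fst_swap, Prod.snd_swap] at this
    have e : |(B : ℝ) * z.2 + A * z.1 + C| = ℓ := by rw [hℓ]; congr 1; ring
    rw [e] at this
    exact absurd c1 (not_le.2 this)

end Pool.Agent.Y353.BS
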